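import Pool.Agent.Helper95.HV.Stmts
import Pool.Agent.Helper25.PM.INLM
import Pool.Agent.Helper62.PM.BINM
import Pool.Agent.Helper13.PM.HA3

/-!
# Sheet HV, row MIZ: momentum near the nuclei
-/

set_option autoImplicit false

namespace Pool.Agent.Helper73.HV

open MeasureTheory Filter Pool.Agent.Helper95 Pool.Agent.Helper95.PW Pool.Agent.Helper95.LN
open Pool.Agent.Helper95.CF Pool.Agent.Helper95.HV

/-- the double commutator identity, with the whole potential -/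
theorem mz_id (hPAN : ST_PAN) (hSTB : ST_STB) (hINT : ST_INTM) (n M : ℕ) (X : Fin M → R3)
    (Z : Fin M → ℝ) (E : ℝ) (g : R3 → ℝ) (hg : ContDiff ℝ (⊤ : ℕ∞) g) (u : Wf n) (hu : Sm u) :
    QM X Z (fun s => Pg g (u s)) - E * PW.sq (fun s => Pg g (u s)) +
      (∑ s, ∫ x, Pg g (Pg g (u s)) x * (hmM X Z (u s) x - E * u s x)) =
    (kin (fun s => Pg g (u s)) -
      (∑ s, ∫ x, Pg g (Pg g (u s)) x * ∑ k, ∑ i, dv k i (dv k i (u s)) x)) +
    ∑ s, ∫ x, (rep x - ∑ k, pot X Z (x k)) *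
      (Pg g (u s) x ^ 2 + Pg g (Pg g (u s)) x * u s x) := by
  have h1 : Sm (fun s => Pg g (u s)) := (hSTB n g u hg hu).2.1
  have h2 : Sm (fun s => Pg g (Pg g (u s))) := (hSTB n g _ hg h1).2.1
  have hO := binm_one hINT n M X Z (fun s => Pg g (u s)) h1
  have hP : ∑ s, ∫ x : Cf n, (∑ k, pot X Z (x k)) * (Pg g (Pg g (u s)) x * u s x) =
      ∑ j, Z j * ∑ s, ∫ x : Cf n, (∑ k, 1 / nr (x k - X j)) * (Pg g (Pg g (u s)) x * u s x) := by
    rw [Finset.sum_congr rfl fun s _ => binm_split hINT n M X Z (Pg g (Pg g (u s))) (u s)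
      (h2 s).1 (h2 s).2 (hu s).1 (hu s).2, Finset.sum_comm]
    refine Finset.sum_congr rfl fun j _ => ?_
    rw [Finset.mul_sum]
  have key : ∀ s, ∫ x, (rep x - ∑ k, pot X Z (x k)) *
      (Pg g (u s) x ^ 2 + Pg g (Pg g (u s)) x * u s x) =
      (∫ x, rep x * Pg g (u s) x ^ 2) + (∫ x, rep x * (Pg g (Pg g (u s)) x * u s x)) -
      (∫ x : Cf n, (∑ k, pot X Z (x k)) * Pg g (u s) x ^ 2) -
      ∫ x : Cf n, (∑ k, pot X Z (x k)) * (Pg g (Pg g (u s)) x * u s x) := by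
    intro s
    obtain ⟨i1, i2, -, -⟩ := hINT n M X Z (Pg g (Pg g (u s))) (u s) (h2 s).1 (h2 s).2
      (hu s).1 (hu s).2
    obtain ⟨j1, j2, -, -⟩ := hINT n M X Z (Pg g (u s)) (Pg g (u s)) (h1 s).1 (h1 s).2
      (h1 s).1 (h1 s).2
    simp only [← pow_two] at j1 j2
    have e : (fun x : Cf n => (rep x - ∑ k, pot X Z (x k)) *
        (Pg g (u s) x ^ 2 + Pg g (Pg g (u s)) x * u s x)) =
        fun x => rep x * Pg g (u s) x ^ 2 + rep x * (Pg g (Pg g (u s)) x * u s x) -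
          (∑ k, pot X Z (x k)) * Pg g (u s) x ^ 2 -
          (∑ k, pot X Z (x k)) * (Pg g (Pg g (u s)) x * u s x) := by
      funext x
      ring
    rw [e, integral_sub, integral_sub, integral_add]
    · exact j2
    · exact i2
    · exact j2.add i2
    · exact j1
    · exact (j2.add i2).sub j1
    · exact i1
  rw [binm_id hPAN hSTB hINT n M X Z E g hg u hu, Finset.sum_congr rfl fun s _ => key s]
  simp only [Finset.sum_add_distrib, Finset.sum_sub_distrib]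
  rw [hP]
  have e1 : ∑ j, Z j * (one (fun y => 1 / nr (y - X j)) (fun s => Pg g (u s)) +
      (∑ s, ∫ x, (∑ k, 1 / nr (x k - X j)) * (Pg g (Pg g (u s)) x * u s x))) =
      one (pot X Z) (fun s => Pg g (u s)) + ∑ j, Z j *
        ∑ s, ∫ x, (∑ k, 1 / nr (x k - X j)) * (Pg g (Pg g (u s)) x * u s x) := by
    rw [hO, ← Finset.sum_add_distrib]
    exact Finset.sum_congr rfl fun j _ => by ring
  rw [e1]
  have e2 : pair (fun s => Pg g (u s)) = ∑ s, ∫ x, rep x * Pg g (u s) x ^ 2 := rfl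
  have e3 : one (pot X Z) (fun s => Pg g (u s)) =
      ∑ s, ∫ x : Cf n, (∑ k, pot X Z (x k)) * Pg g (u s) x ^ 2 := rfl
  rw [e2, e3]
  ring

/-- `near1` and Hardy's inequality -/
theorem mz_near {n M : ℕ} (X : Fin M → R3) (d : ℝ) {u : Wf n} (hu : Sm u) :
    one (near1 X d) u ≤ M * (n * PW.sq u + 4 * kin u) := by
  have hH := st_HA3
  have hv : ∀ s, Integrable (fun x => u s x ^ 2) := by
    intro s
    have e : (fun x => u s x ^ 2) = fun x => u s x * u s x := by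
      funext x
      ring
    rw [e]
    exact ((hu s).1.continuous.mul (hu s).1.continuous).integrable_of_hasCompactSupport
      (HasCompactSupport.mul_left (hu s).2)
  have h1 : ∀ s, ∫ x : Cf n, (∑ k, near1 X d (x k)) * u s x ^ 2 ≤
      ∑ k : Fin n, ∑ _j : Fin M, ((∫ x, u s x ^ 2) + 4 * ∫ x, ∑ i, dv k i (u s) x ^ 2) := by
    intro s
    have hi : ∀ (k : Fin n) (j : Fin M),
        Integrable (fun x : Cf n => u s x ^ 2 + u s x ^ 2 / nr (x k - X j) ^ 2) := fun k j =>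
      (hv s).add (hH n k (X j) (u s) (hu s).1 (hu s).2).1
    have h2 : ∫ x : Cf n, (∑ k, near1 X d (x k)) * u s x ^ 2 ≤
        ∫ x : Cf n, ∑ k : Fin n, ∑ j, (u s x ^ 2 + u s x ^ 2 / nr (x k - X j) ^ 2) := by
      refine integral_mono_of_nonneg (Eventually.of_forall fun x => ?_)
        (integrable_finsetSum _ fun k _ => integrable_finsetSum _ fun j _ => hi k j)
        (Eventually.of_forall fun x => ?_)
      · refine mul_nonneg (Finset.sum_nonneg fun k _ => ?_) (sq_nonneg _)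
        unfold near1
        refine Finset.sum_nonneg fun j _ => ?_
        split_ifs
        · exact div_nonneg zero_le_one (Real.sqrt_nonneg _)
        · exact le_rfl
      · simp only
        rw [Finset.sum_mul]
        refine Finset.sum_le_sum fun k _ => ?_
        unfold near1
        rw [Finset.sum_mul]
        refine Finset.sum_le_sum fun j _ => ?_
        have hn : 0 ≤ nr (x k - X j) := Real.sqrt_nonneg _
        have hu2 : 0 ≤ u s x ^ 2 := sq_nonneg _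
        have hq : 0 ≤ u s x ^ 2 / nr (x k - X j) ^ 2 := by positivity
        split_ifs
        · rcases hn.eq_or_lt with h0 | h0
          · rw [← h0]
            simp
            exact hu2
          · have e : 1 / nr (x k - X j) ≤ 1 + 1 / nr (x k - X j) ^ 2 := by
              have e1 : 1 / nr (x k - X j) ^ 2 = (1 / nr (x k - X j)) ^ 2 := by
                rw [div_pow, one_pow]
              rw [e1]
              nlinarith [sq_nonneg (1 / nr (x k - X j) - 1)]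
            calc 1 / nr (x k - X j) * u s x ^ 2 ≤ (1 + 1 / nr (x k - X j) ^ 2) * u s x ^ 2 :=
                  mul_le_mul_of_nonneg_right e hu2
              _ = u s x ^ 2 + u s x ^ 2 / nr (x k - X j) ^ 2 := by ring
        · rw [zero_mul]
          linarith
    refine h2.trans ?_
    rw [integral_finsetSum _ fun k _ => integrable_finsetSum _ fun j _ => hi k j]
    refine Finset.sum_le_sum fun k _ => ?_
    rw [integral_finsetSum _ fun j _ => hi k j]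
    refine Finset.sum_le_sum fun j _ => ?_
    obtain ⟨a1, a2⟩ := hH n k (X j) (u s) (hu s).1 (hu s).2
    rw [integral_add (hv s) a1]
    linarith
  unfold one
  refine (Finset.sum_le_sum fun s _ => h1 s).trans (le_of_eq ?_)
  have hdi : ∀ s (k : Fin n) i, Integrable (fun x => dv k i (u s) x ^ 2) := by
    intro s k i
    have hc : Continuous (dv k i (u s)) := by
      unfold dv
      exact ((hu s).1.continuous_fderiv (by simp)).clm_apply continuous_const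
    have hs : HasCompactSupport (dv k i (u s)) := by
      unfold dv
      exact ((hu s).2.fderiv (𝕜 := ℝ)).comp_left (g := fun L : Cf n →L[ℝ] ℝ =>
        L (Pi.single k (Pi.single i 1))) rfl
    have e : (fun x => dv k i (u s) x ^ 2) = fun x => dv k i (u s) x * dv k i (u s) x := by
      funext x
      ring
    rw [e]
    exact (hc.mul hc).integrable_of_hasCompactSupport hs.mul_left
  have e3 : kin u = ∑ s : Fin n → Fin 2, ∑ k : Fin n, ∫ x, ∑ i, dv k i (u s) x ^ 2 := by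
    unfold kin PW.sq
    symm
    rw [Finset.sum_comm]
    refine Finset.sum_congr rfl fun k _ => ?_
    rw [Finset.sum_comm]
    refine Finset.sum_congr rfl fun s _ => ?_
    rw [integral_finsetSum _ fun i _ => hdi s k i]
  rw [e3]
  unfold PW.sq
  simp only [Finset.sum_add_distrib, Finset.sum_const, Finset.card_univ, Fintype.card_fin,
    nsmul_eq_mul, ← Finset.mul_sum]
  ring

/-- the form bound of the three fields -/
theorem mz_bin (hDBI : ST_DBI) (hV2I : ST_V2I) (hLOC : ST_LOCY) (hSTB : ST_STB)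
    (hKIN : ST_KINM) (hINT : ST_INTM) (hAED : ST_AED) (hPAN : ST_PAN) :
    ∀ d : ℝ, 0 < d → d ≤ 1 → ∃ C CL : ℝ, 0 < C ∧ 0 < CL ∧ ∀ (z K ρ E B s0 : ℝ) (n M : ℕ)
    (X : Fin M → R3) (Z : Fin M → ℝ) (g : Fin 3 → R3 → ℝ) (S : Set R3) (u : Wf n),
    Dat d z n X Z → 1 ≤ K → 0 < ρ → ρ ≤ d → (∀ m, Scale (g m) K ρ) →
    (∀ m j y, nr (y - X j) < ρ → ∀ i, pd i (g m) y = if i = m then 1 else 0) →
    (∀ m y, (∀ j, d / 2 < nr (y - X j)) → ∀ i, pd i (g m) y = 0) →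
    IsClosed S → (∀ m y, y ∉ S → ∀ i, pd i (g m) y = 0) → Sm u → PW.sq u ≤ 2 → 0 < s0 →
    (∀ s : ℝ, 0 < s → s ≤ s0 → ∑ j, Z j * one (fun y => mor s (y - X j)) u ≤ B) →
    0 ≤ YY CL d z X Z u ∧
    ∑ m, (QM X Z (fun s => Pg (g m) (u s)) - E * PW.sq (fun s => Pg (g m) (u s))) ≤
      -(∑ m, ∑ s, ∫ x, Pg (g m) (Pg (g m) (u s)) x * (hmM X Z (u s) x - E * u s x)) +
      C * K ^ 2 * ((kin u + YY CL d z X Z u) / ρ ^ 2 + one (ind S) u / ρ ^ 4) + B / 2 := by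
  intro d hd hd1
  obtain ⟨C1, hC1, H1⟩ := hKIN
  obtain ⟨C2, hC2, H2⟩ := hV2I d hd hd1
  obtain ⟨C0, CL, hC0, hCL, H3⟩ := hLOC d hd hd1
  refine ⟨3 * C1 + C2 * CL, CL, by positivity, hCL, ?_⟩
  intro z K ρ E B s0 n M X Z g S u hD hK hρ hρd hg g1 g3 hS g2 hu hsq hs0 hB
  obtain ⟨L1, L2⟩ := H3 z n M X Z hD
  obtain ⟨Y0, L3, L4⟩ := L2 u hu hsq
  refine ⟨Y0, ?_⟩
  have hXi : Function.Injective X := by
    intro a b hab
    by_contra hne
    have h := hD.sep a b hne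
    rw [hab, sub_self] at h
    have h0 : nr (0 : R3) = 0 := by simp [nr]
    rw [h0] at h
    linarith
  obtain ⟨D1, D3⟩ := hDBI n M X Z g ρ B s0 u (fun j => hD.nuc.1 j) hXi (fun m => (hg m).sm)
    (fun m => (hg m).cs) hρ hs0 g1 hu hB
  have id : ∀ m, QM X Z (fun s => Pg (g m) (u s)) - E * PW.sq (fun s => Pg (g m) (u s)) =
      -(∑ s, ∫ x, Pg (g m) (Pg (g m) (u s)) x * (hmM X Z (u s) x - E * u s x)) +
      ((kin (fun s => Pg (g m) (u s)) -
        (∑ s, ∫ x, Pg (g m) (Pg (g m) (u s)) x * ∑ k, ∑ i, dv k i (dv k i (u s)) x)) +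
      ∑ s, ∫ x, (rep x - ∑ k, pot X Z (x k)) *
        (Pg (g m) (u s) x ^ 2 + Pg (g m) (Pg (g m) (u s)) x * u s x)) := by
    intro m
    have := mz_id hPAN hSTB hINT n M X Z E (g m) (hg m).sm u hu
    linarith
  have a1 : ∀ m, kin (fun s => Pg (g m) (u s)) -
      (∑ s, ∫ x, Pg (g m) (Pg (g m) (u s)) x * ∑ k, ∑ i, dv k i (dv k i (u s)) x) ≤
      C1 * K ^ 2 * (kin u / ρ ^ 2 + one (ind S) u / ρ ^ 4) :=
    fun m => H1 n (g m) K ρ S u (hg m) hρ hS (g2 m) hu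
  have b1 : ∑ m : Fin 3, (kin (fun s => Pg (g m) (u s)) -
      (∑ s, ∫ x, Pg (g m) (Pg (g m) (u s)) x * ∑ k, ∑ i, dv k i (dv k i (u s)) x)) ≤
      3 * (C1 * K ^ 2 * (kin u / ρ ^ 2 + one (ind S) u / ρ ^ 4)) := by
    refine (Finset.sum_le_sum fun m _ => a1 m).trans ?_
    simp
  -- the electrostatic part
  have b2 : ∑ s, ∫ x, (∑ m, D2 X Z (g m) x) * u s x ^ 2 ≤
      C2 * K ^ 2 / ρ ^ 2 * (CL * YY CL d z X Z u) := by
    have q : 0 ≤ C2 * K ^ 2 / ρ ^ 2 := by positivity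
    have c1 : ∀ s, ∫ x, (∑ m, D2 X Z (g m) x) * u s x ^ 2 ≤
        ∫ x, C2 * K ^ 2 / ρ ^ 2 * (C0 *
          ((Vc X Z x + C0 * (z ^ 2 * M + z * ∑ k, near1 X d (x k))) * u s x ^ 2)) := by
      intro s
      refine integral_mono_ae (D1 s) (((L3 s).const_mul C0).const_mul _) ?_
      filter_upwards [hAED n M X] with x hx
      have e1 := H2 z K ρ n M X Z g x hD hK hρ hρd hg g1 g3 hx
      have e2 := (L1 x hx).2.2
      have e3 := e1.trans (mul_le_mul_of_nonneg_left e2 q)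
      have e4 := mul_le_mul_of_nonneg_right e3 (sq_nonneg (u s x))
      refine e4.trans (le_of_eq ?_)
      ring
    calc ∑ s, ∫ x, (∑ m, D2 X Z (g m) x) * u s x ^ 2 ≤
        ∑ s, ∫ x, C2 * K ^ 2 / ρ ^ 2 * (C0 *
          ((Vc X Z x + C0 * (z ^ 2 * M + z * ∑ k, near1 X d (x k))) * u s x ^ 2)) :=
          Finset.sum_le_sum fun s _ => c1 s
      _ = C2 * K ^ 2 / ρ ^ 2 * (C0 * ∑ s, ∫ x,
          (Vc X Z x + C0 * (z ^ 2 * M + z * ∑ k, near1 X d (x k))) * u s x ^ 2) := by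
          simp only [integral_const_mul, ← Finset.mul_sum]
      _ ≤ _ := mul_le_mul_of_nonneg_left L4 q
  rw [Finset.sum_congr rfl fun m _ => id m, Finset.sum_add_distrib, Finset.sum_neg_distrib,
    Finset.sum_add_distrib]
  have p1 : 0 ≤ kin u := bin_kin u
  have p4 : 0 ≤ one (ind S) u := bin_one _ (binm_ind _) u
  have q1 : 0 ≤ K ^ 2 * (kin u / ρ ^ 2) := by positivity
  have q2 : 0 ≤ K ^ 2 * (YY CL d z X Z u / ρ ^ 2) := by positivity
  have q4 : 0 ≤ K ^ 2 * (one (ind S) u / ρ ^ 4) := by positivity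
  have e : (3 * C1 + C2 * CL) * K ^ 2 *
      ((kin u + YY CL d z X Z u) / ρ ^ 2 + one (ind S) u / ρ ^ 4) =
      3 * (C1 * K ^ 2 * (kin u / ρ ^ 2 + one (ind S) u / ρ ^ 4)) +
      C2 * K ^ 2 / ρ ^ 2 * (CL * YY CL d z X Z u) +
      (3 * C1) * (K ^ 2 * (YY CL d z X Z u / ρ ^ 2)) +
      (C2 * CL) * (K ^ 2 * (kin u / ρ ^ 2)) + (C2 * CL) * (K ^ 2 * (one (ind S) u / ρ ^ 4)) := by
    ring
  have r1 : 0 ≤ (3 * C1) * (K ^ 2 * (YY CL d z X Z u / ρ ^ 2)) := by positivity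
  have r2 : 0 ≤ (C2 * CL) * (K ^ 2 * (kin u / ρ ^ 2)) := by positivity
  have r3 : 0 ≤ (C2 * CL) * (K ^ 2 * (one (ind S) u / ρ ^ 4)) := by positivity
  have r4 : 0 ≤ C2 * K ^ 2 / ρ ^ 2 * (CL * YY CL d z X Z u) := by positivity
  linarith

theorem MIZ (hDBI : ST_DBI) (hV2I : ST_V2I) (hLOC : ST_LOCY) (h1 : ST_CSQM) (h2 : ST_STB)
    (h3 : ST_AIDM) (h4 : ST_CIDM) (hKIN : ST_KINM) (h7 : ST_ERR) (_hQHM : ST_QHM)
    (hI : ST_INTM) (hAED : ST_AED) (h6 : ST_MORM) (hPAN : ST_PAN) (_hIBP : ST_IBP) :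
    ST_MIZ := by
  intro d hd hd1
  obtain ⟨C, CL, hC, hCL, hB⟩ := mz_bin hDBI hV2I hLOC h2 hKIN hI hAED hPAN d hd hd1
  refine ⟨C + 2 + CL, by positivity, ?_⟩
  intro z K ρ M E n NN X Z g S hDat hLow hK hρ hρd hg hin hfar hSc hoff
  have hZ : ∀ j, 0 ≤ Z j := hDat.nuc.1
  have hz1 := hDat.z1
  obtain ⟨zz, hzz⟩ : ∃ zz : ℝ, zz = ∑ j, Z j := ⟨_, rfl⟩
  have hzz0 : 0 ≤ zz := by rw [hzz]; exact Finset.sum_nonneg fun j _ => hZ j
  choose Cm hCm hE using fun m => h7 n (g m) (hg m).sm (hg m).cs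
  obtain ⟨C1, hC1, hCle⟩ : ∃ C1 : ℝ, 0 < C1 ∧ ∀ m, Cm m ≤ C1 := by
    refine ⟨Cm 0 + Cm 1 + Cm 2, by linarith [hCm 0, hCm 1, hCm 2], fun m => ?_⟩
    fin_cases m <;> simp <;> linarith [hCm 0, hCm 1, hCm 2]
  obtain ⟨M0, hM0, hMM⟩ : ∃ M0 : ℝ, 0 ≤ M0 ∧ M ≤ M0 := ⟨|M|, abs_nonneg _, le_abs_self _⟩
  obtain ⟨D, hDdef⟩ : ∃ D, D = Real.sqrt (C1 * (2 * M0 + 2)) := ⟨_, rfl⟩
  have hD : 0 ≤ D := by rw [hDdef]; exact Real.sqrt_nonneg _
  have hn0 : (0:ℝ) ≤ n := Nat.cast_nonneg _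
  have hNN0 : (0:ℝ) ≤ NN := Nat.cast_nonneg _
  obtain ⟨Bs, hBs⟩ : ∃ Bs, Bs = zz * (4 * zz * M0 + 8 * Real.sqrt (n * M0)) := ⟨_, rfl⟩
  have hBs0 : 0 ≤ Bs := by rw [hBs]; positivity
  obtain ⟨Y0, hY0⟩ : ∃ Y0, Y0 = M0 + |nucR X Z| * 2 +
    CL * (z ^ 2 * NN + z * (NN * (n * 2 + 4 * M0))) := ⟨_, rfl⟩
  have hY00 : 0 ≤ Y0 := by rw [hY0]; positivity
  refine ⟨3 * K ^ 2 * (2 * n) * (0 + 3 * D) +
    D * (C * K ^ 2 * ((M0 + Y0) / ρ ^ 2 + 2 * n / ρ ^ 4) + 2 * (Bs / 4) +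
      (0 + 3 * D)) + 4 * D * (C1 * (M0 + 2)) + 1, by positivity, ?_⟩
  intro u hu hA hsq hkin hpair hone hdd hres B1 s0 hB1 hs0 hmor m
  have hh := INLM_h2 hI X Z E hu
  have ρ0 : 0 ≤ Real.sqrt (resM X Z E u) := Real.sqrt_nonneg _
  have ρ1 : Real.sqrt (resM X Z E u) ≤ 1 := Real.sqrt_le_one.2 hres
  have hcau : ∀ f : Wf n, Sm f → PW.sq f ≤ C1 * (2 * M0 + 2) →
      |∑ s, ∫ x, f s x * (hmM X Z (u s) x - E * u s x)| ≤ D * Real.sqrt (resM X Z E u) := by
    intro f hf hs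
    refine (INL_cauchy hf hh).trans ?_
    rw [hDdef]
    exact mul_le_mul (Real.sqrt_le_sqrt hs) le_rfl (Real.sqrt_nonneg _) (Real.sqrt_nonneg _)
  have sq0 : ∀ v : Wf n, 0 ≤ PW.sq v := fun v =>
    Finset.sum_nonneg fun s _ => integral_nonneg fun x => sq_nonneg _
  have kin0 : 0 ≤ kin u := bin_kin u
  have dd0 : 0 ≤ dd u := Finset.sum_nonneg fun k _ => Finset.sum_nonneg fun i _ =>
    Finset.sum_nonneg fun l _ => Finset.sum_nonneg fun m _ => sq0 _
  have pair0 : 0 ≤ pair u := bin_pair u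
  have on0 : 0 ≤ one (pot X Z) u := INL_one0 (fun y => INLM_pot0 X Z hZ y) u
  have ν0 : 0 ≤ one (ind S) u := INL_one0 (fun y => ((INLM_ind S hSc).2 y).1) u
  have ν1 : one (ind S) u ≤ 2 * n := by
    refine (INLM_one1 S hSc hu).trans ?_
    nlinarith
  have su0 := sq0 u
  have SF : ∀ m, Sm (fun s => Fg (g m) (u s)) := fun m => (h2 n (g m) u (hg m).sm hu).1
  have SP : ∀ m, Sm (fun s => Pg (g m) (u s)) := fun m => (h2 n (g m) u (hg m).sm hu).2.1
  have AF : ∀ m, Anti (fun s => Fg (g m) (u s)) := fun m =>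
    ((h2 n (g m) u (hg m).sm hu).2.2 hA).1
  have AP : ∀ m, Anti (fun s => Pg (g m) (u s)) := fun m =>
    ((h2 n (g m) u (hg m).sm hu).2.2 hA).2
  have SFF : ∀ m, Sm (fun s => Fg (g m) (Fg (g m) (u s))) := fun m =>
    (h2 n (g m) (fun s => Fg (g m) (u s)) (hg m).sm (SF m)).1
  have SFP : ∀ m, Sm (fun s => Fg (g m) (Pg (g m) (u s))) := fun m =>
    (h2 n (g m) (fun s => Pg (g m) (u s)) (hg m).sm (SP m)).1
  have SPP : ∀ m, Sm (fun s => Pg (g m) (Pg (g m) (u s))) := fun m =>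
    (h2 n (g m) (fun s => Pg (g m) (u s)) (hg m).sm (SP m)).2.1
  have bd : ∀ (m : Fin 3) (y : ℝ), 0 ≤ y → y ≤ 2 * M0 + 2 → Cm m * y ≤ C1 * (2 * M0 + 2) :=
    fun m y hy0 hy => mul_le_mul (hCle m) hy hy0 hC1.le
  have a1 : ∀ m, |∑ s, ∫ x, Fg (g m) (Fg (g m) (u s)) x * (hmM X Z (u s) x - E * u s x)| ≤
      D * Real.sqrt (resM X Z E u) := fun m =>
    hcau _ (SFF m) ((hE m u hu).1.trans (bd m _ su0 (by linarith)))
  have a2 : ∀ m, |∑ s, ∫ x, Fg (g m) (Pg (g m) (u s)) x * (hmM X Z (u s) x - E * u s x)| ≤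
      D * Real.sqrt (resM X Z E u) := fun m =>
    hcau _ (SFP m) ((hE m u hu).2.2.1.trans (bd m _ (by linarith) (by linarith)))
  have a3 : ∀ m, |∑ s, ∫ x, Pg (g m) (Pg (g m) (u s)) x * (hmM X Z (u s) x - E * u s x)| ≤
      D * Real.sqrt (resM X Z E u) := fun m =>
    hcau _ (SPP m) ((hE m u hu).2.2.2.trans (bd m _ (by linarith) (by linarith)))
  have hP0 : PW.sq (fun s => Pg (g m) (u s)) ≤ C1 * (M0 + 2) :=
    (hE m u hu).2.1.trans (mul_le_mul (hCle m) (by linarith) (by linarith) hC1.le)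
  have b0 : ∀ m, 0 ≤ QM X Z (fun s => Pg (g m) (u s)) - E * PW.sq (fun s => Pg (g m) (u s)) :=
    fun m => sub_nonneg.2 (hLow _ (SP m) (AP m))
  have hmor2 : ∀ s : ℝ, 0 < s → ∑ j, Z j * one (fun y => mor s (y - X j)) u ≤ Bs := by
    intro s hs
    have hs1 : 4 * zz * kin u + 8 * Real.sqrt (n * kin u * resM X Z E u) ≤
        4 * zz * M0 + 8 * Real.sqrt (n * M0) := by
      have k1 := hkin.trans hMM
      have k2 : n * kin u * resM X Z E u ≤ n * M0 := by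
        have r0 : resM X Z E u ≤ 1 := hres
        calc n * kin u * resM X Z E u ≤ n * kin u * 1 :=
              mul_le_mul_of_nonneg_left r0 (mul_nonneg hn0 kin0)
          _ = n * kin u := mul_one _
          _ ≤ n * M0 := mul_le_mul_of_nonneg_left k1 hn0
      have k3 := Real.sqrt_le_sqrt k2
      have k4 : 4 * zz * kin u ≤ 4 * zz * M0 := mul_le_mul_of_nonneg_left k1 (by positivity)
      linarith
    calc ∑ j, Z j * one (fun y => mor s (y - X j)) u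
        ≤ ∑ j, Z j * (4 * zz * M0 + 8 * Real.sqrt (n * M0)) :=
          Finset.sum_le_sum fun j _ => mul_le_mul_of_nonneg_left
            ((by rw [hzz]; exact h6 n NN X Z E s (X j) u hZ hs hu : _ ≤
              4 * zz * kin u + 8 * Real.sqrt (n * kin u * resM X Z E u)).trans hs1) (hZ j)
      _ = Bs := by rw [← Finset.sum_mul, ← hzz, hBs]
  obtain ⟨Bm, hBm⟩ : ∃ Bm, Bm = min B1 Bs := ⟨_, rfl⟩
  have hBm0 : 0 ≤ Bm := by rw [hBm]; exact le_min hB1 hBs0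
  have hBm1 : Bm ≤ B1 := by rw [hBm]; exact min_le_left _ _
  have hBm2 : Bm ≤ Bs := by rw [hBm]; exact min_le_right _ _
  obtain ⟨YL0, hbin⟩ := hB z K ρ E Bm s0 n NN X Z g S u hDat hK hρ hρd hg hin hfar hSc hoff hu
    hsq hs0 (fun s hs hs' => by
      rw [hBm]
      exact le_min (hmor s hs hs') (hmor2 s hs))
  have hnear := mz_near X d (M := NN) hu
  have near0 : 0 ≤ one (near1 X d) u := by
    refine INL_one0 (fun y => ?_) u
    unfold near1
    refine Finset.sum_nonneg fun j _ => ?_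
    split_ifs
    · exact div_nonneg zero_le_one (Real.sqrt_nonneg _)
    · exact le_rfl
  have hYle : YY CL d z X Z u ≤ Y0 := by
    have k1 := hkin.trans hMM
    have k2 := hpair.trans hMM
    have k3 : nucR X Z * PW.sq u ≤ |nucR X Z| * 2 :=
      mul_le_mul (le_abs_self _) hsq su0 (abs_nonneg _)
    have k4 : one (near1 X d) u ≤ NN * (n * 2 + 4 * M0) := by
      refine hnear.trans (mul_le_mul_of_nonneg_left ?_ hNN0)
      have := mul_le_mul_of_nonneg_left hsq hn0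
      linarith
    have k5 : z * one (near1 X d) u ≤ z * (NN * (n * 2 + 4 * M0)) :=
      mul_le_mul_of_nonneg_left k4 (by linarith)
    have k6 : CL * (z ^ 2 * NN + z * one (near1 X d) u) ≤
        CL * (z ^ 2 * NN + z * (NN * (n * 2 + 4 * M0))) :=
      mul_le_mul_of_nonneg_left (by linarith) hCL.le
    unfold YY QM
    rw [hY0]
    linarith
  have hsing := Finset.single_le_sum (f := fun m => QM X Z (fun s => Pg (g m) (u s)) -
    E * PW.sq (fun s => Pg (g m) (u s))) (fun m _ => b0 m) (Finset.mem_univ m)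
  have herr : -(∑ m, ∑ s, ∫ x, Pg (g m) (Pg (g m) (u s)) x * (hmM X Z (u s) x - E * u s x)) ≤
      3 * (D * Real.sqrt (resM X Z E u)) := by
    rw [← Finset.sum_neg_distrib]
    calc ∑ m, -(∑ s, ∫ x, Pg (g m) (Pg (g m) (u s)) x * (hmM X Z (u s) x - E * u s x)) ≤
        ∑ _m : Fin 3, D * Real.sqrt (resM X Z E u) := Finset.sum_le_sum fun m _ => by
          have := (abs_le.1 (a3 m)).1
          linarith
      _ = _ := by simp
  have hS0 : 0 ≤ (kin u + YY CL d z X Z u) / ρ ^ 2 + one (ind S) u / ρ ^ 4 := by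
    positivity
  have hS1 : (kin u + YY CL d z X Z u) / ρ ^ 2 + one (ind S) u / ρ ^ 4 ≤
      (M0 + Y0) / ρ ^ 2 + 2 * n / ρ ^ 4 := by
    have k1 := hkin.trans hMM
    gcongr
  have hcs := h1 n NN X Z E (fun s => Fg (g m) (u s)) (fun s => Pg (g m) (u s)) hLow (SF m)
    (AF m) (SP m) (AP m)
  rw [h4 n NN X Z E (g m) u (hg m).sm hu, h3 n NN X Z E (g m) u (hg m).sm hu] at hcs
  have hfin := INL_fin hcs (a1 m) (a2 m)
    ⟨INL_one0 (fun y => Finset.sum_nonneg fun i _ => sq_nonneg _) u,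
      INLM_grd (hg m) S hSc (hoff m) hu⟩
    (C := C) (S := (kin u + YY CL d z X Z u) / ρ ^ 2 + one (ind S) u / ρ ^ 4)
    (X := Bm / 4) (q := 0)
    ⟨b0 m, by
      have := hsing.trans hbin
      linarith [this, herr]⟩ ⟨ρ0, ρ1⟩ ⟨sq0 _, hP0⟩ ⟨ν0, ν1⟩ ⟨hS0, hS1⟩
    ⟨by positivity, by linarith⟩ (X0 := Bs / 4) hK hC.le hD le_rfl
  refine hfin.trans ?_
  have hmono : YY CL d z X Z u ≤ YY (C + 2 + CL) d z X Z u := by
    have k1 : 0 ≤ z ^ 2 * NN + z * one (near1 X d) u := by positivity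
    unfold YY
    nlinarith [mul_nonneg hC.le k1]
  have hx : (C + 2) * K ^ 4 * (one (ind S) u * ((kin u + YY CL d z X Z u) / ρ ^ 2 +
      one (ind S) u / ρ ^ 4 + Bm / 4)) ≤ (C + 2 + CL) * K ^ 4 * (one (ind S) u *
        ((kin u + YY (C + 2 + CL) d z X Z u) / ρ ^ 2 + one (ind S) u / ρ ^ 4 + B1)) := by
    have k2 : (kin u + YY CL d z X Z u) / ρ ^ 2 + one (ind S) u / ρ ^ 4 + Bm / 4 ≤
        (kin u + YY (C + 2 + CL) d z X Z u) / ρ ^ 2 + one (ind S) u / ρ ^ 4 + B1 := by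
      have k3 : (kin u + YY CL d z X Z u) / ρ ^ 2 ≤
          (kin u + YY (C + 2 + CL) d z X Z u) / ρ ^ 2 := by gcongr
      linarith
    have k4 : 0 ≤ (kin u + YY CL d z X Z u) / ρ ^ 2 + one (ind S) u / ρ ^ 4 + Bm / 4 := by
      linarith
    have k5 := mul_le_mul_of_nonneg_left k2 ν0
    have k6 : 0 ≤ one (ind S) u * ((kin u + YY CL d z X Z u) / ρ ^ 2 +
      one (ind S) u / ρ ^ 4 + Bm / 4) := mul_nonneg ν0 k4
    have k7 : (C + 2) * K ^ 4 ≤ (C + 2 + CL) * K ^ 4 :=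
      mul_le_mul_of_nonneg_right (by linarith) (by positivity)
    exact mul_le_mul k7 k5 k6 (by positivity)
  nlinarith

end Pool.Agent.Helper73.HV
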